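import Pool.Agent.Helper14.TK.StA

/-!
# Project T3K, part A, module B9O: level 9, odd half
-/

set_option autoImplicit false

namespace Pool.Agent.Helper1.TA

open Pool.Agent.Helper14.TK Pool.Agent.Helper14.T3 Pool.Agent.Helper14.CV Pool.Agent.Helper14.W3 Pool.Agent.Helper78.W3

/-- Descent: a homogeneous potential, odd around its value `κ` at `∞`, invariant under the parabolic generators at the
cusps `∞`, `0`, `1/3` and with equal values at these cusps is constant. -/
private theorem descent (K : ℤ → ℤ → ℂ) (κ : ℂ) (hH : Homog K)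
    (h1 : ∀ p q : ℤ, (p ≠ 0 ∨ q ≠ 0) → K (p + q) q = K p q)
    (h2 : ∀ p q : ℤ, (p ≠ 0 ∨ q ≠ 0) → K p (9 * p + q) = K p q)
    (h3 : ∀ p q : ℤ, (p ≠ 0 ∨ q ≠ 0) → K (-2 * p + q) (-9 * p + 4 * q) = K p q)
    (h4 : ∀ p q : ℤ, (p ≠ 0 ∨ q ≠ 0) → K (-p) q = κ → K p q = κ)
    (k1 : K 1 0 = κ) (k2 : K 0 1 = κ) (k3 : K 1 3 = κ) :
    ∀ N : ℕ, ∀ p q : ℤ, q.natAbs ≤ N → (p ≠ 0 ∨ q ≠ 0) → K p q = κ := by
  have hT : ∀ (k : ℕ) (p q : ℤ), (p ≠ 0 ∨ q ≠ 0) → q ≠ 0 → K (p + k * q) q = K p q := by
    intro k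
    induction k with
    | zero => intro p q _ _; simp
    | succ k ih =>
      intro p q hpq hq
      have e : p + ((k + 1 : ℕ) : ℤ) * q = (p + k * q) + q := by push_cast; ring
      rw [e, h1 _ _ (Or.inr hq), ih p q hpq hq]
  have hneg : ∀ p q : ℤ, (p ≠ 0 ∨ q ≠ 0) → K (-p) (-q) = K p q := by
    intro p q hpq
    have := hH (-1) p q (by norm_num) hpq
    simpa using this
  have h2' : ∀ p q : ℤ, (p ≠ 0 ∨ q ≠ 0) → K p (q - 9 * p) = K p q := by
    intro p q hpq
    have := h2 p (q - 9 * p) (by omega)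
    rw [add_sub_cancel] at this
    exact this.symm
  have h3' : ∀ p q : ℤ, (p ≠ 0 ∨ q ≠ 0) → K (4 * p - q) (9 * p - 2 * q) = K p q := by
    intro p q hpq
    have := h3 (4 * p - q) (9 * p - 2 * q) (by omega)
    have e1 : -2 * (4 * p - q) + (9 * p - 2 * q) = p := by ring
    have e2 : -9 * (4 * p - q) + 4 * (9 * p - 2 * q) = q := by ring
    rw [e1, e2] at this
    exact this.symm
  intro N
  induction N with
  | zero =>
    intro p q h hpq
    have hq : q = 0 := by omega
    subst hq
    have hp : p ≠ 0 := by omega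
    have := hH p 1 0 hp (Or.inl one_ne_zero)
    rw [mul_zero, mul_one] at this
    rw [this, k1]
  | succ N ih =>
    -- the reduced case
    have hred : ∀ r q : ℤ, 0 < q → 0 ≤ r → 2 * r ≤ q → q.natAbs ≤ N + 1 → K r q = κ := by
      intro r q hq hr hrq hN
      by_cases hr0 : r = 0
      · subst hr0
        have := hH q 0 1 (by omega) (Or.inr one_ne_zero)
        rw [mul_zero, mul_one] at this
        rw [this, k2]
      rcases lt_trichotomy (3 * r) q with hlt | heq | hgt
      · by_cases h9 : 9 * r < 2 * q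
        · rw [← h2' r q (by omega)]
          exact ih _ _ (by omega) (by omega)
        · rw [← h3' r q (by omega)]
          exact ih _ _ (by omega) (by omega)
      · have := hH r 1 3 hr0 (Or.inl one_ne_zero)
        rw [mul_one, mul_comm r 3, heq] at this
        rw [this, k3]
      · rw [← h3 r q (by omega)]
        exact ih _ _ (by omega) (by omega)
    -- positive denominators
    have hpos : ∀ p q : ℤ, 0 < q → 0 ≤ p → q.natAbs ≤ N + 1 → K p q = κ := by
      intro p q hq hp hN
      have hm0 : 0 ≤ p % q := Int.emod_nonneg p (by omega)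
      have hm1 : p % q < q := Int.emod_lt_of_pos p hq
      have hd0 : 0 ≤ p / q := Int.ediv_nonneg hp hq.le
      have e : K p q = K (p % q) q := by
        have := hT (p / q).toNat (p % q) q (by omega) (by omega)
        rw [Int.toNat_of_nonneg hd0] at this
        have e2 : p % q + p / q * q = p := by
          have := Int.emod_add_mul_ediv p q
          linarith [mul_comm (p / q) q]
        rw [e2] at this
        exact this
      rw [e]
      by_cases hs : 2 * (p % q) ≤ q
      · exact hred _ _ hq hm0 hs hN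
      · refine h4 _ _ (by omega) ?_
        rw [← h1 _ _ (by omega)]
        exact hred _ _ hq (by omega) (by omega) hN
    have hpos2 : ∀ p q : ℤ, 0 < q → q.natAbs ≤ N + 1 → K p q = κ := by
      intro p q hq hN
      by_cases hp : 0 ≤ p
      · exact hpos p q hq hp hN
      · refine h4 _ _ (by omega) ?_
        exact hpos _ q hq (by omega) hN
    intro p q hN hpq
    rcases lt_trichotomy q 0 with hq | hq | hq
    · rw [← hneg p q hpq]
      exact hpos2 _ _ (by omega) (by omega)
    · exact ih p q (by omega) hpq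
    · exact hpos2 p q hq hN

/-- B9O: a symbol of level `9` with `K∘W ≈ K` and `K∘* ≈ -K` is constant. -/
theorem hB9O : StB9O := by
  intro K hS hW hst
  have e9 : (3 : ℤ) ^ 2 = 9 := by norm_num
  rw [e9] at hW
  have h1 : ∀ p q : ℤ, (p ≠ 0 ∨ q ≠ 0) → K (p + q) q = K p q := by
    intro p q hpq
    obtain ⟨c, hc⟩ := hS.2 1 1 0 1 (by norm_num) (by norm_num) (by norm_num)
    have e1 := hc 1 0 (Or.inl one_ne_zero)
    have e2 := hc p q hpq
    simp only [act] at e1 e2
    norm_num at e1 e2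
    rw [e2, e1, add_zero]
  have h2 : ∀ p q : ℤ, (p ≠ 0 ∨ q ≠ 0) → K p (9 * p + q) = K p q := by
    intro p q hpq
    obtain ⟨c, hc⟩ := hS.2 1 0 9 1 (by norm_num) (by norm_num) (by norm_num)
    have e1 := hc 0 1 (Or.inr one_ne_zero)
    have e2 := hc p q hpq
    simp only [act] at e1 e2
    norm_num at e1 e2
    rw [e2, e1, add_zero]
  have h3 : ∀ p q : ℤ, (p ≠ 0 ∨ q ≠ 0) → K (-2 * p + q) (-9 * p + 4 * q) = K p q := by
    intro p q hpq
    obtain ⟨c, hc⟩ := hS.2 (-2) 1 (-9) 4 (by norm_num) (by norm_num) (by norm_num)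
    have e1 := hc 1 3 (Or.inl one_ne_zero)
    have e2 := hc p q hpq
    simp only [act, one_mul] at e1 e2
    norm_num at e1
    rw [e2, e1, add_zero]
  have h4 : ∀ p q : ℤ, (p ≠ 0 ∨ q ≠ 0) → K (-p) q = 2 * K 1 0 - K p q := by
    intro p q hpq
    obtain ⟨c, hc⟩ := hst
    have e1 := hc 1 0 (Or.inl one_ne_zero)
    have e2 := hc p q hpq
    simp only [act, Pi.neg_apply] at e1 e2
    have e3 := hS.1 (-1) 1 0 (by norm_num) (Or.inl one_ne_zero)
    norm_num at e1 e2 e3
    rw [e3] at e1
    rw [e2]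
    linear_combination -e1
  have k2 : K 0 1 = K 1 0 := by
    have e := h4 0 1 (Or.inr one_ne_zero)
    rw [neg_zero] at e
    have e9 : (2 : ℂ) * K 0 1 = 2 * K 1 0 := by
      linear_combination e
    exact mul_left_cancel₀ two_ne_zero e9
  obtain ⟨c, hc⟩ := hW
  have k3 : K 1 3 = K 1 0 := by
    have e1 := hc 1 0 (Or.inl one_ne_zero)
    have e2 := hc 1 3 (Or.inl one_ne_zero)
    simp only [act] at e1 e2
    norm_num at e1 e2
    have e3 := hS.1 9 0 1 (by norm_num) (Or.inr one_ne_zero)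
    have e4 := hS.1 3 (-1) 3 (by norm_num) (Or.inl (by norm_num))
    have e5 := h4 1 3 (Or.inl one_ne_zero)
    norm_num at e3 e4 e5
    have e9 : (2 : ℂ) * K 1 3 = 2 * K 1 0 := by
      linear_combination e4 - e2 + e5 - e3 + e1 - k2
    exact mul_left_cancel₀ two_ne_zero e9
  refine ⟨K 1 0, fun p q hpq => ?_⟩
  rw [descent K (K 1 0) hS.1 h1 h2 h3 (fun p q hpq h => by
    have e := h4 p q hpq
    rw [h] at e
    linear_combination e) rfl k2 k3 _ p q le_rfl hpq]
  simp

end Pool.Agent.Helper1.TA
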